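import Pool.Agent.Q229.TDS.Red
import Pool.Agent.Q229.TDS.Mem

/-!
# Deciding whether the total domination number equals the sub-total domination number is NP-complete

The reduction is from exact cover by 3-sets (`q` triples out of `m` have to cover `3 q` elements).
Let `K = q m`.  The graph has `q` slots; the slot `i` is adjacent to `3 K + 1` leaves and to `m`
vertices `(i, t)`, one for each triple `t`; the vertex `(i, t)` is also adjacent to `K` copies of
each of the three elements of `t`.  The vertices of largest degree are the slots (`3 K + 1 + m`) and
then the pairs `(i, t)` (`3 K + 1`), so that the sub-total domination number is `2 q`.  A total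
dominating set contains all the slots, and `q` further vertices can be chosen such that the copies of
the elements are dominated if and only if there is an exact cover.
-/

set_option autoImplicit false

namespace Pool.Agent.Results.MP_bfbf95_lc.TdsEqNPComplete

open Pool.Agent.NPC Pool.Agent.H622R2 Q229.TDS

/-- **TDS-EQ is NP-complete**: it is in `NP`, and every language in `NP` has a polynomial-time
many-one reduction to it all of whose values are (adjacency matrices of) graphs without isolated
vertices. -/
theorem result :
    InNPP TDSEQ ∧
    ∀ L : Set (List Bool), InNP L → ∃ f : List Bool → List (List Bool),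
      PolyTime (fun x => bits (f x)) ∧ (∀ x, ∀ v, ∃ u, (matGraph (f x)).Adj v u) ∧
      ∀ x, x ∈ L ↔ TDSEQ (f x) := by
  refine ⟨inNPP, fun L hL => ?_⟩
  obtain ⟨f, hf, hpr, h⟩ := hard L hL
  exact ⟨f, PC.toPolyTime hf, hpr, h⟩

end Pool.Agent.Results.MP_bfbf95_lc.TdsEqNPComplete
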